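import Pool.Agent.Helper63.XR.StB

/-!
# XR module RC: regularity
-/

set_option autoImplicit false

namespace Pool.Agent.Helper18.XR

open Pool.Agent.Helper63.XR
open Finset Filter Topology MeasureTheory

/-- the restriction of an integrable function to a set -/
private noncomputable def res {Y : Type} [MeasurableSpace Y] {ν : Measure Y} {E : Set Y} (hE : MeasurableSet E)
    (ζ : Lp ℂ 1 ν) : Lp ℂ 1 ν := ((Lp.memLp ζ).indicator hE).toLp

private theorem res_ae {Y : Type} [MeasurableSpace Y] {ν : Measure Y} {E : Set Y} (hE : MeasurableSet E)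
    (ζ : Lp ℂ 1 ν) : res hE ζ =ᵐ[ν] E.indicator ζ := MemLp.coeFn_toLp _

private theorem res_add {Y : Type} [MeasurableSpace Y] {ν : Measure Y} {E : Set Y} (hE : MeasurableSet E)
    (ζ : Lp ℂ 1 ν) : res hE ζ + res hE.compl ζ = ζ := by
  apply Lp.ext
  filter_upwards [Lp.coeFn_add (res hE ζ) (res hE.compl ζ), res_ae hE ζ, res_ae hE.compl ζ] with y h1 h2 h3
  rw [h1, Pi.add_apply, h2, h3]
  by_cases hy : y ∈ E
  · rw [Set.indicator_of_mem hy, Set.indicator_of_notMem (by simpa using hy), add_zero]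
  · rw [Set.indicator_of_notMem hy, Set.indicator_of_mem (by simpa using hy), zero_add]

private theorem norm_res {Y : Type} [MeasurableSpace Y] {ν : Measure Y} {E : Set Y} (hE : MeasurableSet E)
    (ζ : Lp ℂ 1 ν) : ‖res hE ζ‖ = ∫ y in E, ‖ζ y‖ ∂ν := by
  rw [L1.norm_eq_integral_norm, ← integral_indicator hE]
  apply integral_congr_ae
  filter_upwards [res_ae hE ζ] with y h1
  rw [h1]
  by_cases hy : y ∈ E
  · rw [Set.indicator_of_mem hy, Set.indicator_of_mem hy]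
  · rw [Set.indicator_of_notMem hy, Set.indicator_of_notMem hy, norm_zero]

/-- a local operator on `L^1` of norm at most `c` is dominated pointwise by `c` -/
private theorem ae_bound {Y : Type} [MeasurableSpace Y] (ν : Measure Y) [SigmaFinite ν]
    (T : Lp ℂ 1 ν →L[ℂ] Lp ℂ 1 ν)
    (hT : ∀ f g : Lp ℂ 1 ν, (∀ᵐ y ∂ν, f y = 0 ∨ g y = 0) → ∀ᵐ y ∂ν, f y = 0 ∨ (T g) y = 0) (c : ℝ)
    (hc : ∀ ζ, ‖T ζ‖ ≤ c * ‖ζ‖) (ζ : Lp ℂ 1 ν) : ∀ᵐ y ∂ν, ‖(T ζ) y‖ ≤ c * ‖ζ y‖ := by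
  have hint1 : Integrable (fun y => ‖(T ζ) y‖) ν := (L1.integrable_coeFn (T ζ)).norm
  have hint2 : Integrable (fun y => c * ‖ζ y‖) ν := (L1.integrable_coeFn ζ).norm.const_mul c
  apply ae_le_of_forall_setIntegral_le hint1 hint2
  intro E hE _
  -- a function which is nonzero exactly on E
  obtain ⟨w, hw0, hwm, hwi⟩ := exists_pos_lintegral_lt_of_sigmaFinite ν (ε := 1) one_ne_zero
  have hwint : Integrable (fun y => ((w y : ℝ) : ℂ)) ν := by
    refine ⟨?_, ?_⟩
    · exact (Complex.measurable_ofReal.comp (measurable_coe_nnreal_real.comp hwm)).aestronglyMeasurable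
    · rw [hasFiniteIntegral_iff_enorm]
      refine lt_of_le_of_lt (le_of_eq ?_) (hwi.trans ENNReal.one_lt_top)
      apply lintegral_congr
      intro y
      rw [← ofReal_norm_eq_enorm, Complex.norm_real, Real.norm_eq_abs, abs_of_nonneg (NNReal.coe_nonneg _),
        ENNReal.ofReal_coe_nnreal]
  let f : Lp ℂ 1 ν := ((memLp_one_iff_integrable.2 hwint).indicator hE).toLp
  have hf : f =ᵐ[ν] E.indicator (fun y => ((w y : ℝ) : ℂ)) := MemLp.coeFn_toLp _
  have hdis : ∀ᵐ y ∂ν, f y = 0 ∨ (res hE.compl ζ) y = 0 := by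
    filter_upwards [hf, res_ae hE.compl ζ] with y h1 h2
    by_cases hy : y ∈ E
    · right
      rw [h2, Set.indicator_of_notMem (by simpa using hy)]
    · left
      rw [h1, Set.indicator_of_notMem hy]
  have h1 := hT f (res hE.compl ζ) hdis
  have h2 : ∀ᵐ y ∂ν, y ∈ E → (T ζ) y = (T (res hE ζ)) y := by
    have h3 : T ζ = T (res hE ζ) + T (res hE.compl ζ) := by
      rw [← map_add, res_add]
    rw [h3]
    filter_upwards [h1, hf, Lp.coeFn_add (T (res hE ζ)) (T (res hE.compl ζ))] with y k1 k2 k3 hy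
    rw [k3, Pi.add_apply]
    rcases k1 with k1 | k1
    · exfalso
      rw [k2, Set.indicator_of_mem hy] at k1
      have : (w y : ℝ) = 0 := by exact_mod_cast k1
      have h4 := hw0 y
      rw [NNReal.coe_eq_zero] at this
      rw [this] at h4
      exact lt_irrefl _ h4
    · rw [k1, add_zero]
  have h5 : ∫ y in E, ‖(T ζ) y‖ ∂ν = ∫ y in E, ‖(T (res hE ζ)) y‖ ∂ν := by
    apply setIntegral_congr_ae hE
    filter_upwards [h2] with y k hy
    rw [k hy]
  calc ∫ y in E, ‖(T ζ) y‖ ∂ν = ∫ y in E, ‖(T (res hE ζ)) y‖ ∂ν := h5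
    _ ≤ ∫ y, ‖(T (res hE ζ)) y‖ ∂ν :=
        setIntegral_le_integral (L1.integrable_coeFn _).norm (Eventually.of_forall fun y => norm_nonneg _)
    _ = ‖T (res hE ζ)‖ := (L1.norm_eq_integral_norm _).symm
    _ ≤ c * ‖res hE ζ‖ := hc _
    _ = c * ∫ y in E, ‖ζ y‖ ∂ν := by rw [norm_res]
    _ = ∫ y in E, c * ‖ζ y‖ ∂ν := (integral_const_mul c _).symm

/-- the pointwise inequality for finitely many operators -/
private theorem sum_bound {Y : Type} [MeasurableSpace Y] (ν : Measure Y) (s : Finset ℤ)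
    (η : ℤ → Lp ℂ 1 ν) (c : ℝ) (ξ : Lp ℂ 1 ν)
    (h : ∀ u : s → ℂ, (∀ n, ‖u n‖ ≤ 1) → ∀ᵐ y ∂ν, ‖∑ n : s, u n * (η n) y‖ ≤ c * ‖ξ y‖) :
    ∑ n ∈ s, ‖η n‖ ≤ c * ‖ξ‖ := by
  classical
  let B : Type := {u : s → ℂ // ∀ n, ‖u n‖ ≤ 1}
  obtain ⟨D, hDc, hDd⟩ := TopologicalSpace.exists_countable_dense B
  have h1 : ∀ᵐ y ∂ν, ∀ d ∈ D, ‖∑ n : s, d.1 n * (η n) y‖ ≤ c * ‖ξ y‖ := by
    rw [ae_ball_iff hDc]
    intro d _
    exact h d.1 d.2
  have h2 : ∀ᵐ y ∂ν, ∑ n ∈ s, ‖(η n) y‖ ≤ c * ‖ξ y‖ := by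
    filter_upwards [h1] with y hy
    have hcl : IsClosed {d : B | ‖∑ n : s, d.1 n * (η n) y‖ ≤ c * ‖ξ y‖} := by
      apply isClosed_le _ continuous_const
      apply continuous_norm.comp
      apply continuous_finset_sum
      intro n _
      exact ((continuous_apply n).comp continuous_subtype_val).mul continuous_const
    have hall : ∀ d : B, ‖∑ n : s, d.1 n * (η n) y‖ ≤ c * ‖ξ y‖ := by
      intro d
      have h3 : d ∈ closure D := hDd d
      exact (closure_minimal (fun d hd => hy d hd) hcl) h3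
    let u : s → ℂ := fun n => if (η n) y = 0 then 1 else (starRingEnd ℂ) ((η n) y) / ‖(η n) y‖
    have hu : ∀ n, ‖u n‖ ≤ 1 := by
      intro n
      simp only [u]
      split_ifs with h0
      · simp
      · rw [norm_div, RCLike.norm_conj, Complex.norm_real, norm_norm]
        rw [div_self (norm_ne_zero_iff.2 h0)]
    have h4 := hall ⟨u, hu⟩
    have h5 : ∑ n : s, u n * (η n) y = ((∑ n ∈ s, ‖(η n) y‖ : ℝ) : ℂ) := by
      rw [← Finset.sum_coe_sort s (fun n => ‖(η n) y‖), Complex.ofReal_sum]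
      refine Finset.sum_congr rfl fun n _ => ?_
      simp only [u]
      split_ifs with h0
      · rw [h0]; simp
      · rw [div_mul_eq_mul_div, ← Complex.normSq_eq_conj_mul_self, Complex.normSq_eq_norm_sq]
        have h6 : ((‖(η n) y‖ : ℝ) : ℂ) ≠ 0 := by
          exact_mod_cast norm_ne_zero_iff.2 h0
        push_cast
        field_simp
    simp only [h5] at h4
    rw [Complex.norm_real, Real.norm_eq_abs, abs_of_nonneg (Finset.sum_nonneg fun n _ => norm_nonneg _)] at h4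
    exact h4
  have h3 : ∑ n ∈ s, ‖η n‖ = ∫ y, ∑ n ∈ s, ‖(η n) y‖ ∂ν := by
    rw [integral_finset_sum _ fun n _ => (L1.integrable_coeFn (η n)).norm]
    exact Finset.sum_congr rfl fun n _ => L1.norm_eq_integral_norm _
  rw [h3, L1.norm_eq_integral_norm, ← integral_const_mul]
  apply integral_mono_ae _ ((L1.integrable_coeFn ξ).norm.const_mul c) h2
  exact integrable_finset_sum _ fun n _ => (L1.integrable_coeFn (η n)).norm

theorem hRC : StRc := by
  intro hRb hRa X _ _ ρ s g c ξ hc hg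
  have := ρ.sf
  letI := ρ.mY
  apply sum_bound ρ.ν s (fun n => ρ.π (g n) ξ) c ξ
  intro u hu
  -- the function sum u_n g_n
  let φ : C(X, ℂ) := ∑ n : s, u n • g n
  have hφ : ‖φ‖ ≤ c := by
    rw [ContinuousMap.norm_le _ hc]
    intro x
    have h1 : φ x = ∑ n : s, u n * g n x := by
      simp only [φ]
      rw [ContinuousMap.sum_apply]
      refine Finset.sum_congr rfl fun n _ => ?_
      simp
    rw [h1]
    calc ‖∑ n : s, u n * g n x‖ ≤ ∑ n : s, ‖u n * g n x‖ := norm_sum_le _ _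
      _ ≤ ∑ n : s, ‖g n x‖ := by
          refine Finset.sum_le_sum fun n _ => ?_
          rw [norm_mul]
          exact mul_le_of_le_one_left (norm_nonneg _) (hu n)
      _ = ∑ n ∈ s, ‖g n x‖ := Finset.sum_coe_sort s (fun n => ‖g n x‖)
      _ ≤ c := hg x
  have h1 := ae_bound ρ.ν (ρ.π φ) (fun f g' h => hRb hRa X ρ φ f g' h) c (by
    intro ζ
    calc ‖ρ.π φ ζ‖ ≤ ‖ρ.π φ‖ * ‖ζ‖ := (ρ.π φ).le_opNorm ζ
      _ ≤ c * ‖ζ‖ := mul_le_mul_of_nonneg_right ((ρ.contr φ).trans hφ) (norm_nonneg _)) ξ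
  have h2 : ρ.π φ ξ = ∑ n : s, u n • ρ.π (g n) ξ := by
    simp only [φ]
    rw [map_sum, ContinuousLinearMap.sum_apply]
    refine Finset.sum_congr rfl fun n _ => ?_
    rw [map_smul]
    rfl
  have h3 : (ρ.π φ ξ : ρ.Y → ℂ) =ᵐ[ρ.ν] fun y => ∑ n : s, u n * (ρ.π (g n) ξ) y := by
    rw [h2]
    have h4 : ((∑ n : s, u n • ρ.π (g n) ξ : Lp ℂ 1 ρ.ν) : ρ.Y → ℂ) =ᵐ[ρ.ν]
        ∑ n : s, ((u n • ρ.π (g n) ξ : Lp ℂ 1 ρ.ν) : ρ.Y → ℂ) := by
      have h6 : ∀ t : Finset s, ((∑ n ∈ t, u n • ρ.π (g n) ξ : Lp ℂ 1 ρ.ν) : ρ.Y → ℂ) =ᵐ[ρ.ν]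
          ∑ n ∈ t, ((u n • ρ.π (g n) ξ : Lp ℂ 1 ρ.ν) : ρ.Y → ℂ) := by
        intro t
        induction t using Finset.induction_on with
        | empty =>
          simp only [Finset.sum_empty]
          exact Lp.coeFn_zero _ _ _
        | insert a t ha ih =>
          rw [Finset.sum_insert ha, Finset.sum_insert ha]
          exact (Lp.coeFn_add _ _).trans ((ae_eq_refl _).add ih)
      exact h6 univ
    have h5 : ∀ᵐ y ∂ρ.ν, ∀ n : s, (u n • ρ.π (g n) ξ : Lp ℂ 1 ρ.ν) y = u n * (ρ.π (g n) ξ) y := by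
      rw [ae_all_iff]
      intro n
      filter_upwards [Lp.coeFn_smul (u n) (ρ.π (g n) ξ)] with y hy
      rw [hy, Pi.smul_apply, smul_eq_mul]
    filter_upwards [h4, h5] with y k1 k2
    rw [k1, Finset.sum_apply]
    exact Finset.sum_congr rfl fun n _ => k2 n
  filter_upwards [h1, h3] with y k1 k2
  rw [← k2]
  exact k1

end Pool.Agent.Helper18.XR
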